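import Pool.Agent.Helper69.UX.StA

/-!
# Project UX, module WTU: planted expectation of the squared weight, upper bound
-/

set_option autoImplicit false

namespace Pool.Agent.Helper87.UX

open Finset Filter Pool.Agent.Helper82.CN Pool.Agent.Helper11.PV Pool.Agent.Helper69.VX
  Pool.Agent.Helper69.UX

/-- the pairs in `S` -/
private def pr {n : ℕ} (S : Finset (Fin n)) : Finset (Sym2 (Fin n)) :=
  S.offDiag.image (fun x => s(x.1, x.2))

private lemma card_pr {n : ℕ} (S : Finset (Fin n)) : (pr S).card = S.card.choose 2 :=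
  Sym2.card_image_offDiag S

private lemma mem_pr {n : ℕ} (S : Finset (Fin n)) (u v : Fin n) :
    s(u, v) ∈ pr S ↔ u ≠ v ∧ u ∈ S ∧ v ∈ S := by
  unfold pr
  rw [Finset.mem_image]
  constructor
  · rintro ⟨⟨a, b⟩, hab, h⟩
    rw [Finset.mem_offDiag] at hab
    simp only [Sym2.eq_iff] at h
    rcases h with ⟨rfl, rfl⟩ | ⟨rfl, rfl⟩
    · exact ⟨hab.2.2, hab.1, hab.2.1⟩
    · exact ⟨hab.2.2.symm, hab.2.1, hab.1⟩
  · rintro ⟨h1, h2, h3⟩
    exact ⟨(u, v), Finset.mem_offDiag.2 ⟨h2, h3, h1⟩, rfl⟩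

private lemma ind_iff {n : ℕ} (S : Finset (Fin n)) (ω : Sym2 (Fin n) → Bool) :
    (∀ u ∈ S, ∀ v ∈ S, u ≠ v → ω s(u, v) = false) ↔ ∀ e ∈ pr S, ω e = false := by
  constructor
  · intro h e
    induction e using Sym2.ind with
    | _ u v =>
      intro he
      rw [mem_pr] at he
      exact h u he.2.1 v he.2.2 he.1
  · intro h u hu v hv huv
    exact h _ ((mem_pr S u v).2 ⟨huv, hu, hv⟩)

private lemma inter_pr {n : ℕ} (S T : Finset (Fin n)) :
    pr S ∩ pr T = pr (S ∩ T) := by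
  ext e
  induction e using Sym2.ind with
  | _ u v =>
    rw [Finset.mem_inter, mem_pr, mem_pr, mem_pr, Finset.mem_inter, Finset.mem_inter]
    tauto

private lemma card_union_pr {n k : ℕ} (S T : Finset (Fin n)) (hS : S.card = k)
    (hT : T.card = k) :
    (pr S ∪ pr T).card = 2 * k.choose 2 - (S ∩ T).card.choose 2 := by
  have h := Finset.card_union_add_card_inter (pr S) (pr T)
  rw [inter_pr, card_pr, card_pr, card_pr, hS, hT] at h
  omega

private lemma not_disj {n : ℕ} (S T : Finset (Fin n)) (h : ¬ Disjoint (pr S) (pr T)) :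
    2 ≤ (S ∩ T).card := by
  rw [Finset.not_disjoint_iff] at h
  obtain ⟨e, h1, h2⟩ := h
  induction e using Sym2.ind with
  | _ u v =>
    rw [mem_pr] at h1 h2
    have : ({u, v} : Finset (Fin n)) ⊆ S ∩ T := by
      intro x hx
      rw [Finset.mem_insert, Finset.mem_singleton] at hx
      rw [Finset.mem_inter]
      rcases hx with rfl | rfl
      · exact ⟨h1.2.1, h2.2.1⟩
      · exact ⟨h1.2.2, h2.2.2⟩
    calc 2 = ({u, v} : Finset (Fin n)).card := (Finset.card_pair h1.1).symm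
      _ ≤ _ := Finset.card_le_card this

open Classical in
/-- transversal sets -/
private noncomputable def TR (n T : ℕ) (P Q : Finset (Finset (Fin n))) :
    Finset (Finset (Fin n)) :=
  ((univ : Finset (Fin n)).powersetCard T).filter
    (fun S => (∀ A ∈ P, (S ∩ A).card ≤ 1) ∧ ∀ A ∈ Q, (S ∩ A).card ≤ 1)

open Classical in
private noncomputable def Y0 (n T : ℕ) (P Q : Finset (Finset (Fin n)))
    (ω : Sym2 (Fin n) → Bool) : ℝ :=
  ∑ S ∈ TR n T P Q, if (∀ i ∈ pr S, ω i = false) then (1 : ℝ) else 0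

private lemma kT_le {n T kT : ℕ} {P : Finset (Finset (Fin n))} (hP : P ∈ Pt (Fin n))
    (hk : (P.filter (fun A => A.card = T)).card = kT) : kT * T ≤ n := by
  classical
  simp only [Pt, Finset.mem_filter] at hP
  have h1 : ((P.filter (fun A => A.card = T)).biUnion id).card =
      ∑ A ∈ P.filter (fun A => A.card = T), A.card := by
    apply Finset.card_biUnion
    intro A hA B hB hAB
    exact hP.2.2.1 A (Finset.mem_filter.1 hA).1 B (Finset.mem_filter.1 hB).1 hAB
  have h2 : ∑ A ∈ P.filter (fun A => A.card = T), A.card = kT * T := by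
    rw [Finset.sum_congr rfl (g := fun _ => T) (fun A hA => (Finset.mem_filter.1 hA).2),
      Finset.sum_const, hk, smul_eq_mul]
  rw [← h2, ← h1]
  calc _ ≤ (univ : Finset (Fin n)).card := Finset.card_le_card (Finset.subset_univ _)
    _ = n := by rw [Finset.card_univ, Fintype.card_fin]

/-- pointwise bound -/
private lemma X_ge {n T kT : ℕ} {P Q : Finset (Finset (Fin n))} (hT : 2 ≤ T)
    (hkP : (P.filter (fun A => A.card = T)).card = kT)
    (hkQ : (Q.filter (fun A => A.card = T)).card = kT)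
    (ω : Sym2 (Fin n) → Bool) (hωP : prp ω P) (hωQ : prp ω Q) :
    Y0 n T P Q ω + (2 * kT - ((P ∩ Q).filter (fun A => A.card = T)).card) ≤ Xk n T ω := by
  classical
  obtain ⟨R, hR⟩ : ∃ R : Finset (Finset (Fin n)),
    R = (TR n T P Q).filter (fun S => ∀ i ∈ pr S, ω i = false) := ⟨_, rfl⟩
  obtain ⟨C, hC⟩ : ∃ C : Finset (Finset (Fin n)),
    C = P.filter (fun A => A.card = T) ∪ Q.filter (fun A => A.card = T) := ⟨_, rfl⟩
  have hY : Y0 n T P Q ω = R.card := by
    unfold Y0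
    rw [hR, Finset.card_filter]
    push_cast
    rfl
  have hCc : C.card + ((P ∩ Q).filter (fun A => A.card = T)).card = 2 * kT := by
    have h := Finset.card_union_add_card_inter (P.filter (fun A => A.card = T))
      (Q.filter (fun A => A.card = T))
    rw [← Finset.filter_inter_distrib, hkP, hkQ, ← hC] at h
    omega
  have hdisj : Disjoint R C := by
    rw [Finset.disjoint_left]
    intro A hA hA'
    rw [hR, Finset.mem_filter] at hA
    unfold TR at hA
    rw [Finset.mem_filter, Finset.mem_powersetCard] at hA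
    rw [hC, Finset.mem_union, Finset.mem_filter, Finset.mem_filter] at hA'
    rcases hA' with ⟨h1, h2⟩ | ⟨h1, h2⟩
    · have := hA.1.2.1 A h1
      rw [Finset.inter_self, h2] at this
      omega
    · have := hA.1.2.2 A h1
      rw [Finset.inter_self, h2] at this
      omega
  have hsub : R ∪ C ⊆ ((univ : Finset (Fin n)).powersetCard T).filter
      (fun S => ∀ u ∈ S, ∀ v ∈ S, u ≠ v → ω s(u, v) = false) := by
    intro A hA
    rw [Finset.mem_union] at hA
    rw [Finset.mem_filter, Finset.mem_powersetCard]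
    rcases hA with hA | hA
    · rw [hR, Finset.mem_filter] at hA
      unfold TR at hA
      rw [Finset.mem_filter, Finset.mem_powersetCard] at hA
      exact ⟨hA.1.1, (ind_iff A ω).2 hA.2⟩
    · rw [hC, Finset.mem_union, Finset.mem_filter, Finset.mem_filter] at hA
      rcases hA with ⟨h1, h2⟩ | ⟨h1, h2⟩
      · exact ⟨⟨Finset.subset_univ _, h2⟩, fun u hu v hv huv => hωP A h1 u hu v hv huv⟩
      · exact ⟨⟨Finset.subset_univ _, h2⟩, fun u hu v hv huv => hωQ A h1 u hu v hv huv⟩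
  have hcard := Finset.card_le_card hsub
  rw [Finset.card_union_of_disjoint hdisj] at hcard
  have hX : Xk n T ω = ((((univ : Finset (Fin n)).powersetCard T).filter
      (fun S => ∀ u ∈ S, ∀ v ∈ S, u ≠ v → ω s(u, v) = false)).card : ℝ) := by
    unfold Xk
    congr!
  rw [hX, hY]
  have h1 : (R.card : ℝ) + C.card ≤ ((((univ : Finset (Fin n)).powersetCard T).filter
      (fun S => ∀ u ∈ S, ∀ v ∈ S, u ≠ v → ω s(u, v) = false)).card : ℝ) := by
    exact_mod_cast hcard
  have h2 : (C.card : ℝ) + ((P ∩ Q).filter (fun A => A.card = T)).card = 2 * kT := by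
    exact_mod_cast hCc
  linarith

/-- independence of the planted event and `Y0` -/
private lemma indep {n T : ℕ} (p c : ℝ) (P Q : Finset (Finset (Fin n))) :
    EE p (fun ω : Sym2 (Fin n) → Bool => (open Classical in
      if prp ω P ∧ prp ω Q then (1 : ℝ) else 0) * Real.exp (c * Y0 n T P Q ω)) =
    EE p (fun ω : Sym2 (Fin n) → Bool => (open Classical in
      if prp ω P ∧ prp ω Q then (1 : ℝ) else 0)) *
      EE p (fun ω : Sym2 (Fin n) → Bool => Real.exp (c * Y0 n T P Q ω)) := by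
  classical
  refine EE_indep p (fun e => (∃ A ∈ P, e ∈ pr A) ∨ ∃ A ∈ Q, e ∈ pr A) _ _ ?_ ?_
  · intro ω ω' h
    have h1 : prp ω P ↔ prp ω' P := by
      constructor
      · intro h2 A hA u hu v hv huv
        rw [← h s(u, v) (Or.inl ⟨A, hA, (mem_pr A u v).2 ⟨huv, hu, hv⟩⟩)]
        exact h2 A hA u hu v hv huv
      · intro h2 A hA u hu v hv huv
        rw [h s(u, v) (Or.inl ⟨A, hA, (mem_pr A u v).2 ⟨huv, hu, hv⟩⟩)]
        exact h2 A hA u hu v hv huv
    have h2 : prp ω Q ↔ prp ω' Q := by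
      constructor
      · intro h2 A hA u hu v hv huv
        rw [← h s(u, v) (Or.inr ⟨A, hA, (mem_pr A u v).2 ⟨huv, hu, hv⟩⟩)]
        exact h2 A hA u hu v hv huv
      · intro h2 A hA u hu v hv huv
        rw [h s(u, v) (Or.inr ⟨A, hA, (mem_pr A u v).2 ⟨huv, hu, hv⟩⟩)]
        exact h2 A hA u hu v hv huv
    by_cases h3 : prp ω P ∧ prp ω Q
    · rw [if_pos h3, if_pos ⟨h1.1 h3.1, h2.1 h3.2⟩]
    · rw [if_neg h3, if_neg (fun h4 => h3 ⟨h1.2 h4.1, h2.2 h4.2⟩)]
  · intro ω ω' h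
    have hY : Y0 n T P Q ω = Y0 n T P Q ω' := by
      unfold Y0
      refine Finset.sum_congr rfl fun S hS => ?_
      unfold TR at hS
      rw [Finset.mem_filter] at hS
      have h1 : ∀ e ∈ pr S, ω e = ω' e := by
        intro e he
        apply h
        intro h2
        have h3 : ∃ A, (A ∈ P ∨ A ∈ Q) ∧ e ∈ pr A := by
          rcases h2 with ⟨A, hA, h4⟩ | ⟨A, hA, h4⟩
          · exact ⟨A, Or.inl hA, h4⟩
          · exact ⟨A, Or.inr hA, h4⟩
        obtain ⟨A, hA, h4⟩ := h3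
        have h5 : 2 ≤ (S ∩ A).card :=
          not_disj S A (Finset.not_disjoint_iff.2 ⟨e, he, h4⟩)
        rcases hA with hA | hA
        · have := hS.2.1 A hA
          omega
        · have := hS.2.2 A hA
          omega
      by_cases h2 : ∀ i ∈ pr S, ω i = false
      · rw [if_pos h2, if_pos (fun i hi => by rw [← h1 i hi]; exact h2 i hi)]
      · rw [if_neg h2, if_neg (fun h3 => h2 (fun i hi => by rw [h1 i hi]; exact h3 i hi))]
    show Real.exp (c * Y0 n T P Q ω) = Real.exp (c * Y0 n T P Q ω')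
    rw [hY]

theorem hWTU : StJAN → StTRV → StDLT → StMKS → StPRQ → StWTU := by
  intro hJAN hTRV hDLT hMKS hPRQ p ε hp0 hp1 hε0 hε1
  obtain ⟨n1, hn1⟩ := hDLT p (ε / 4) hp0 hp1 (by linarith) (by linarith)
  obtain ⟨n2, hn2⟩ := hMKS p ε hp0 hp1 hε0 hε1
  refine ⟨n1 + n2 + 1, ?_⟩
  intro n T th P Q kT η hn hW hP hPT hPk hQ hQT hQk hη
  classical
  have hW' : Win p (ε / 4) n T th := ⟨hW.1, hW.2.1, by have := hW.2.2; linarith⟩
  have hD := hn1 n T th (by omega) hW'
  obtain ⟨hT4, hT8, hTn, hMlo, hMhi, _, _⟩ := hn2 n T th (by omega) hW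
  have hp1' : p < 1 := by
    have : 0 < 1 / Real.exp 2 := by positivity
    linarith
  have hq0 : 0 < 1 - p := by linarith
  have hq1 : 1 - p ≤ 1 := by linarith
  have hn0 : (0 : ℝ) < n := by
    have : 0 < n := by omega
    exact_mod_cast this
  have hn1' : (1 : ℝ) ≤ n := by
    have : 1 ≤ n := by omega
    exact_mod_cast this
  obtain ⟨M, hM⟩ : ∃ M : ℝ, M = Mk p n T := ⟨_, rfl⟩
  rw [← hM] at hD hMlo hMhi hη
  rw [← hM]
  have hMpos : 0 < M := lt_of_lt_of_le (Real.rpow_pos_of_pos hn0 _) hMlo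
  have hη0 : 0 ≤ η := by rw [hη]; positivity
  have hηM : η * M = kT := by rw [hη]; field_simp
  have hkn : (kT : ℝ) ≤ n := by
    have h1 := kT_le hP hPk
    have h2 : kT ≤ n := by nlinarith
    exact_mod_cast h2
  obtain ⟨l, hl⟩ : ∃ l : ℝ, l = (((P ∩ Q).filter (fun A => A.card = T)).card : ℝ) := ⟨_, rfl⟩
  -- step 1
  have hstep1 : EE p (fun ω : Sym2 (Fin n) → Bool => (if prp ω P ∧ prp ω Q then (1 : ℝ) else 0) *
      Real.exp (-2 * η * Xk n T ω)) ≤
      Real.exp (-2 * η * (2 * kT - l)) *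
      EE p (fun ω : Sym2 (Fin n) → Bool => (if prp ω P ∧ prp ω Q then (1 : ℝ) else 0) *
        Real.exp (-(2 * η) * Y0 n T P Q ω)) := by
    rw [← EE_mul_left]
    apply EE_mono hp0.le hp1'.le
    intro ω
    by_cases h : prp ω P ∧ prp ω Q
    · simp only [if_pos h, one_mul]
      rw [← Real.exp_add]
      apply Real.exp_le_exp.2
      have h1 := X_ge (by omega) hPk hQk ω h.1 h.2
      rw [← hl] at h1
      have h2 : (2 * η) * (Y0 n T P Q ω + (2 * kT - l)) ≤ (2 * η) * Xk n T ω :=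
        mul_le_mul_of_nonneg_left h1 (by linarith)
      linarith
    · simp only [if_neg h, zero_mul, mul_zero]
      exact le_refl _
  rw [← hl]
  have hind := indep (T := T) p (-(2 * η)) P Q
  have hPR := (hPRQ p 0 n P Q hp1' hP hQ).2.1
  have hPR' : EE p (fun ω : Sym2 (Fin n) → Bool => (if prp ω P ∧ prp ω Q then (1 : ℝ) else 0)) =
      (1 - p) ^ (inn P + inn Q) * (1 / (1 - p)) ^ ovl P Q := by
    convert hPR
  have hJ := hJAN p (2 * η) (Sym2 (Fin n)) (Finset (Fin n)) (TR n T P Q) pr hp0.le hp1'.le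
    (by linarith) (by
      intro S hS
      unfold TR at hS
      rw [Finset.mem_filter, Finset.mem_powersetCard] at hS
      rw [← Finset.card_pos, card_pr, hS.1.2]
      exact Nat.choose_pos (by omega))
  have hcardS : ∀ S ∈ TR n T P Q, S.card = T := by
    intro S hS
    unfold TR at hS
    rw [Finset.mem_filter, Finset.mem_powersetCard] at hS
    exact hS.1.2
  have hμ : M * (1 - (T : ℝ) ^ 3 / n) ≤ ∑ S ∈ TR n T P Q, (1 - p) ^ (pr S).card := by
    have h1 : ∑ S ∈ TR n T P Q, (1 - p) ^ (pr S).card =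
        (TR n T P Q).card * (1 - p) ^ (T.choose 2) := by
      rw [Finset.sum_congr rfl (g := fun _ => (1 - p) ^ (T.choose 2)), Finset.sum_const,
        nsmul_eq_mul]
      intro S hS
      rw [card_pr, hcardS S hS]
    rw [h1]
    have h2 : (n.choose T : ℝ) * (1 - (T : ℝ) ^ 3 / n) ≤ (TR n T P Q).card := by
      have h3 := hTRV n T P Q (by omega) hTn hP hQ
        (fun A hA => (hPT A hA).trans (Nat.le_succ T))
        (fun A hA => (hQT A hA).trans (Nat.le_succ T))
      unfold TR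
      convert h3
    rw [hM]
    unfold Mk
    have h3 : 0 ≤ (1 - p) ^ (T.choose 2) := by positivity
    nlinarith
  have hΔ : ∑ S ∈ TR n T P Q, ∑ S' ∈ (TR n T P Q).filter (fun S' => ¬ Disjoint (pr S) (pr S')),
      (1 - p) ^ (pr S ∪ pr S').card ≤ M * (1 + (n : ℝ) ^ (th - 1 + ε / 4)) := by
    refine le_trans ?_ hD
    have hsub : TR n T P Q ⊆ (univ : Finset (Fin n)).powersetCard T := by
      unfold TR
      exact Finset.filter_subset _ _
    refine le_trans (Finset.sum_le_sum (g := fun S =>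
      ∑ S' ∈ ((univ : Finset (Fin n)).powersetCard T).filter (fun S' => 2 ≤ (S ∩ S').card),
      (1 - p) ^ (2 * T.choose 2 - (S ∩ S').card.choose 2)) ?_) ?_
    · intro S hS
      have h1 : ∑ S' ∈ (TR n T P Q).filter (fun S' => ¬ Disjoint (pr S) (pr S')),
          (1 - p) ^ (pr S ∪ pr S').card =
          ∑ S' ∈ (TR n T P Q).filter (fun S' => ¬ Disjoint (pr S) (pr S')),
          (1 - p) ^ (2 * T.choose 2 - (S ∩ S').card.choose 2) := by
        refine Finset.sum_congr rfl fun S' hS' => ?_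
        rw [Finset.mem_filter] at hS'
        rw [card_union_pr S S' (hcardS S hS) (hcardS S' hS'.1)]
      rw [h1]
      apply Finset.sum_le_sum_of_subset_of_nonneg
      · intro S' hS'
        rw [Finset.mem_filter] at hS' ⊢
        exact ⟨hsub hS'.1, not_disj S S' hS'.2⟩
      · intro S' _ _
        positivity
    · apply Finset.sum_le_sum_of_subset_of_nonneg hsub
      intro S _ _
      apply Finset.sum_nonneg
      intro S' _
      positivity
  have hJ' : EE p (fun ω : Sym2 (Fin n) → Bool => Real.exp (-(2 * η) * Y0 n T P Q ω)) ≤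
      Real.exp (-2 * η * M + 2 * η ^ 2 * M + (n : ℝ) ^ ε) := by
    have h0 : EE p (fun ω : Sym2 (Fin n) → Bool => Real.exp (-(2 * η) * Y0 n T P Q ω)) ≤
        Real.exp (-(2 * η) * ∑ S ∈ TR n T P Q, (1 - p) ^ (pr S).card +
      (2 * η) ^ 2 / 2 * ∑ S ∈ TR n T P Q,
        ∑ S' ∈ (TR n T P Q).filter (fun S' => ¬ Disjoint (pr S) (pr S')),
        (1 - p) ^ (pr S ∪ pr S').card) := by
      unfold Y0
      convert hJ
    refine h0.trans ?_
    apply Real.exp_le_exp.2
    have h1 : (2 * η) * (M * (1 - (T : ℝ) ^ 3 / n)) ≤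
        (2 * η) * ∑ S ∈ TR n T P Q, (1 - p) ^ (pr S).card :=
      mul_le_mul_of_nonneg_left hμ (by linarith)
    have h2 := mul_le_mul_of_nonneg_left hΔ (show (0 : ℝ) ≤ (2 * η) ^ 2 / 2 by positivity)
    -- numeric bounds
    have hA : (4 : ℝ) ≤ (n : ℝ) ^ (ε / 8) := by
      have h3 : (4 : ℝ) ≤ (T : ℝ) := by exact_mod_cast hT4
      have h4 : (T : ℝ) ≤ (T : ℝ) ^ 8 := by
        calc (T : ℝ) = (T : ℝ) ^ 1 := (pow_one _).symm
          _ ≤ (T : ℝ) ^ 8 := pow_le_pow_right₀ (by linarith) (by norm_num)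
      linarith
    have hB : 4 * (T : ℝ) ^ 3 ≤ (n : ℝ) ^ ε := by
      have h3 : (4 : ℝ) ≤ (T : ℝ) := by exact_mod_cast hT4
      have h4 : 4 * (T : ℝ) ^ 3 ≤ (T : ℝ) ^ 8 := by
        calc 4 * (T : ℝ) ^ 3 ≤ (T : ℝ) * (T : ℝ) ^ 3 :=
              mul_le_mul_of_nonneg_right h3 (by positivity)
          _ = (T : ℝ) ^ 4 := by ring
          _ ≤ (T : ℝ) ^ 8 := pow_le_pow_right₀ (by linarith) (by norm_num)
      have h5 : (n : ℝ) ^ (ε / 8) ≤ (n : ℝ) ^ ε :=
        Real.rpow_le_rpow_of_exponent_le hn1' (by linarith)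
      linarith
    have hC : 2 * η * M * ((T : ℝ) ^ 3 / n) ≤ (n : ℝ) ^ ε / 2 := by
      have h3 : 2 * η * M * ((T : ℝ) ^ 3 / n) = 2 * (T : ℝ) ^ 3 * (kT / n) := by
        rw [← hηM]; ring
      rw [h3]
      have h4 : (kT : ℝ) / n ≤ 1 := by rw [div_le_one hn0]; exact hkn
      have h5 : 2 * (T : ℝ) ^ 3 * (kT / n) ≤ 2 * (T : ℝ) ^ 3 * 1 :=
        mul_le_mul_of_nonneg_left h4 (by positivity)
      linarith
    have hE : 2 * η ^ 2 * M * (n : ℝ) ^ (th - 1 + ε / 4) ≤ (n : ℝ) ^ ε / 2 := by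
      have h3 : η ^ 2 * M = (kT : ℝ) ^ 2 / M := by
        rw [hη]; field_simp
      have h4 : (kT : ℝ) ^ 2 / M ≤ (n : ℝ) ^ (1 - th + ε / 8) := by
        rw [div_le_iff₀ hMpos]
        have h5 : (kT : ℝ) ^ 2 ≤ (n : ℝ) ^ (2 : ℝ) := by
          rw [Real.rpow_two]
          exact pow_le_pow_left₀ (by positivity) hkn 2
        refine h5.trans ?_
        have h6 : (n : ℝ) ^ (2 : ℝ) = (n : ℝ) ^ (1 - th + ε / 8) * (n : ℝ) ^ (1 + th - ε / 8) := by
          rw [← Real.rpow_add hn0]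
          congr 1
          ring
        rw [h6]
        exact mul_le_mul_of_nonneg_left hMlo (by positivity)
      have h7 : 2 * η ^ 2 * M * (n : ℝ) ^ (th - 1 + ε / 4) ≤ 2 * (n : ℝ) ^ (3 * ε / 8) := by
        have h8 : (n : ℝ) ^ (3 * ε / 8) = (n : ℝ) ^ (1 - th + ε / 8) * (n : ℝ) ^ (th - 1 + ε / 4) := by
          rw [← Real.rpow_add hn0]
          congr 1
          ring
        rw [h8]
        have h9 : (η ^ 2 * M) * (n : ℝ) ^ (th - 1 + ε / 4) ≤
            (n : ℝ) ^ (1 - th + ε / 8) * (n : ℝ) ^ (th - 1 + ε / 4) := by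
          rw [h3]
          exact mul_le_mul_of_nonneg_right h4 (by positivity)
        linarith
      have h10 : 4 * (n : ℝ) ^ (3 * ε / 8) ≤ (n : ℝ) ^ ε := by
        calc 4 * (n : ℝ) ^ (3 * ε / 8) ≤ (n : ℝ) ^ (ε / 8) * (n : ℝ) ^ (3 * ε / 8) :=
              mul_le_mul_of_nonneg_right hA (by positivity)
          _ = (n : ℝ) ^ (ε / 2) := by
              rw [← Real.rpow_add hn0]
              congr 1
              ring
          _ ≤ (n : ℝ) ^ ε := Real.rpow_le_rpow_of_exponent_le hn1' (by linarith)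
      linarith
    have h3 : (2 * η) ^ 2 / 2 * (M * (1 + (n : ℝ) ^ (th - 1 + ε / 4))) =
        2 * η ^ 2 * M + 2 * η ^ 2 * M * (n : ℝ) ^ (th - 1 + ε / 4) := by ring
    have h4 : (2 * η) * (M * (1 - (T : ℝ) ^ 3 / n)) =
        2 * η * M - 2 * η * M * ((T : ℝ) ^ 3 / n) := by ring
    rw [h3] at h2
    rw [h4] at h1
    linarith
  have hval : 0 ≤ (1 - p) ^ (inn P + inn Q) * (1 / (1 - p)) ^ ovl P Q := by positivity
  calc EE p (fun ω : Sym2 (Fin n) → Bool => (if prp ω P ∧ prp ω Q then (1 : ℝ) else 0) *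
      Real.exp (-2 * η * Xk n T ω))
      ≤ Real.exp (-2 * η * (2 * kT - l)) *
      EE p (fun ω : Sym2 (Fin n) → Bool => (if prp ω P ∧ prp ω Q then (1 : ℝ) else 0) *
        Real.exp (-(2 * η) * Y0 n T P Q ω)) := hstep1
    _ = Real.exp (-2 * η * (2 * kT - l)) * (((1 - p) ^ (inn P + inn Q) * (1 / (1 - p)) ^ ovl P Q) *
        EE p (fun ω : Sym2 (Fin n) → Bool => Real.exp (-(2 * η) * Y0 n T P Q ω))) := by
        rw [← hPR']
        congr 1
    _ ≤ Real.exp (-2 * η * (2 * kT - l)) * (((1 - p) ^ (inn P + inn Q) * (1 / (1 - p)) ^ ovl P Q) *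
        Real.exp (-2 * η * M + 2 * η ^ 2 * M + (n : ℝ) ^ ε)) :=
        mul_le_mul_of_nonneg_left (mul_le_mul_of_nonneg_left hJ' hval) (Real.exp_pos _).le
    _ = (1 - p) ^ (inn P + inn Q) * (1 / (1 - p)) ^ ovl P Q *
        (Real.exp (-2 * η * (2 * kT - l)) * Real.exp (-2 * η * M + 2 * η ^ 2 * M + (n : ℝ) ^ ε)) := by
        ring
    _ = (1 - p) ^ (inn P + inn Q) * (1 / (1 - p)) ^ ovl P Q *
        Real.exp (-2 * η * (2 * kT - l) - 2 * η * M + 2 * η ^ 2 * M + (n : ℝ) ^ ε) := by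
        rw [← Real.exp_add]
        congr 2
        ring

end Pool.Agent.Helper87.UX
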